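import Pool.Agent.H2x671.Circuit

/-!
# Threshold circuits of depth two for functions of sensitivity `s`: size `n ^ O(s)` for
`s = O(log n)` and for `s ≥ n / O(log n)`
-/

set_option autoImplicit false

namespace Pool.Agent.Results.MP_671030_lc.LogSensitivity

/-- `f` is computed by a circuit of `m` linear threshold gates of depth at most `d`. -/
def ThresholdCircuit (n m d : ℕ) (f : (Fin n → Bool) → Bool) : Prop :=
  ∃ (w : Fin m → Fin n → ℝ) (v : Fin m → Fin m → ℝ) (θ : Fin m → ℝ)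
    (ℓ : Fin m → ℕ) (o : Fin m) (g : (Fin n → Bool) → Fin m → Bool),
    (∀ j, 1 ≤ ℓ j ∧ ℓ j ≤ d) ∧
    (∀ j k, v j k ≠ 0 → ℓ k < ℓ j) ∧
    (∀ (x : Fin n → Bool) (j : Fin m),
      g x j = decide (θ j ≤ (∑ i : Fin n, w j i * (if x i then (1 : ℝ) else 0)) +
                            ∑ k : Fin m, v j k * (if g x k then (1 : ℝ) else 0))) ∧
    (∀ x : Fin n → Bool, g x o = f x)

/-- The sensitivity of `f` at `x`. -/
def sensitivityAt (n : ℕ) (f : (Fin n → Bool) → Bool) (x : Fin n → Bool) : ℕ :=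
  (Finset.univ.filter (fun i : Fin n => f (Function.update x i (!x i)) ≠ f x)).card

theorem main (n s : ℕ) (f : (Fin n → Bool) → Bool) (hf : ∀ x, sensitivityAt n f x ≤ s) :
    ∃ m : ℕ, m ≤ min (5 ^ (s ^ 2)) (2 ^ n) + 1 ∧ ThresholdCircuit n m 2 f := by
  classical
  have hs : ∀ X, Helper903_S.sens (H2x671.onSets f) X ≤ s := by
    intro X
    rw [H2x671.sens_onSets]
    exact hf fun i => decide (i ∈ X)
  obtain ⟨y, hy⟩ := H2x671.exists_point_all (H2x671.onSets f) s hs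
  have hc := H2x671.comp_expand f y
  have hcard : Fintype.card (Option {S : Finset (Fin n) //
      Helper903_S.der (H2x671.onSets f) y S ≠ 0}) = ((Finset.univ : Finset
      (Finset (Fin n))).filter fun S => Helper903_S.der (H2x671.onSets f) y S ≠ 0).card + 1 := by
    rw [Fintype.card_option, Fintype.card_subtype]
  refine ⟨Fintype.card (Option {S : Finset (Fin n) //
      Helper903_S.der (H2x671.onSets f) y S ≠ 0}), ?_,
    H2x671.Comp.equiv (Fintype.equivFin _).symm hc⟩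
  rw [hcard]
  refine Nat.add_le_add_right (le_min hy ?_) 1
  refine le_trans (Finset.card_le_univ _) ?_
  rw [Fintype.card_finset, Fintype.card_fin]

/-- **Low sensitivity in depth two.** (1) A function of `n` bits with sensitivity at most `s`
has a threshold circuit of depth `2` with at most `min (5 ^ (s ^ 2)) (2 ^ n) + 1` gates.
(2) Hence for each `K` there is a `c` such that for all `n, s ≥ 1` with `2 ^ s ≤ n ^ K` (that is
`s ≤ K log₂ n`) or `2 ^ n ≤ n ^ (K s)` (that is `s ≥ n / (K log₂ n)`), each function of `n` bits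
with sensitivity at most `s` has such a circuit with at most `n ^ (c s)` gates. -/
theorem result :
    (∀ (n s : ℕ) (f : (Fin n → Bool) → Bool), (∀ x, sensitivityAt n f x ≤ s) →
      ∃ m : ℕ, m ≤ min (5 ^ (s ^ 2)) (2 ^ n) + 1 ∧ ThresholdCircuit n m 2 f) ∧
    (∀ K : ℕ, ∃ c : ℕ, ∀ n s : ℕ, 1 ≤ n → 1 ≤ s → (2 ^ s ≤ n ^ K ∨ 2 ^ n ≤ n ^ (K * s)) →
      ∀ f : (Fin n → Bool) → Bool, (∀ x, sensitivityAt n f x ≤ s) →
        ∃ m : ℕ, m ≤ n ^ (c * s) ∧ ThresholdCircuit n m 2 f) := by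
  refine ⟨main, fun K => ⟨3 * K + 1, fun n s hn hs hr f hf => ?_⟩⟩
  obtain ⟨m, hm, hc⟩ := main n s f hf
  refine ⟨m, le_trans hm ?_, hc⟩
  rcases hr with hr | hr
  · have h1 : min (5 ^ (s ^ 2)) (2 ^ n) + 1 ≤ 5 ^ (s ^ 2) + 1 :=
      Nat.add_le_add_right (min_le_left _ _) 1
    have hs2 : 1 ≤ s ^ 2 := Nat.one_le_pow _ _ hs
    have h2 : 5 ^ (s ^ 2) + 1 ≤ 8 ^ (s ^ 2) := by
      obtain ⟨t, ht⟩ : ∃ t, s ^ 2 = t + 1 := ⟨s ^ 2 - 1, by omega⟩
      rw [ht, pow_succ, pow_succ]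
      have h3 : 5 ^ t ≤ 8 ^ t := Nat.pow_le_pow_left (by norm_num) t
      have h4 : 1 ≤ 8 ^ t := Nat.one_le_pow _ _ (by norm_num)
      omega
    have h5 : 8 ^ (s ^ 2) = (2 ^ s) ^ (3 * s) := by
      rw [← pow_mul, show (8 : ℕ) = 2 ^ 3 by norm_num, ← pow_mul]
      congr 1; ring
    have h6 : (2 ^ s) ^ (3 * s) ≤ (n ^ K) ^ (3 * s) := Nat.pow_le_pow_left hr _
    have h7 : (n ^ K) ^ (3 * s) ≤ n ^ ((3 * K + 1) * s) := by
      rw [← pow_mul]
      exact Nat.pow_le_pow_right hn (by nlinarith)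
    omega
  · have h1 : min (5 ^ (s ^ 2)) (2 ^ n) + 1 ≤ 2 ^ n + 1 :=
      Nat.add_le_add_right (min_le_right _ _) 1
    have hn2 : 2 ≤ n := by
      rcases Nat.lt_or_ge n 2 with h | h
      · have : n = 1 := by omega
        subst this
        simp at hr
      · exact h
    have h2 : 1 ≤ n ^ (K * s) := Nat.one_le_pow _ _ hn
    have h3 : n ^ (K * s) + 1 ≤ n ^ (K * s + 1) := by
      rw [pow_succ]
      nlinarith
    have h4 : n ^ (K * s + 1) ≤ n ^ ((3 * K + 1) * s) :=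
      Nat.pow_le_pow_right hn (by nlinarith)
    omega

end Pool.Agent.Results.MP_671030_lc.LogSensitivity
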